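import Pool.Agent.Helper4.HZ.Goals

/-!
# Packet HZ CLA: abelian chief factors
-/

namespace Pool.Agent.Helper7.HZ.CLA

open Pool.Agent.Helper4.HZ

section

variable (p : ℕ) {G : Type} [Group G]

theorem aut_mem (β : MulAut G) {k : G} (hk : k ∈ Opp p G) : β k ∈ Opp p G := by
  have h : Opp p G ≤ (Opp p G).comap (β : G ≃* G).toMonoidHom := by
    conv_lhs => rw [Opp]
    rw [Subgroup.closure_le]
    rintro g ⟨n, hn⟩
    refine Subgroup.subset_closure ⟨n, ?_⟩
    change (β g) ^ p ^ n = 1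
    rw [← map_pow, hn, map_one]
  exact h hk

/-- the action of an automorphism on the homomorphisms `Opp p G → ℤ/p` -/
def act (β : MulAut G) : homsTo p (Opp p G) →ₗ[ZMod p] homsTo p (Opp p G) where
  toFun f := ⟨fun k ↦ f.1 ⟨(β⁻¹ : MulAut G) k.1, aut_mem p β⁻¹ k.2⟩, by
    intro a b
    have h := f.2 ⟨(β⁻¹ : MulAut G) a.1, aut_mem p β⁻¹ a.2⟩ ⟨(β⁻¹ : MulAut G) b.1, aut_mem p β⁻¹ b.2⟩
    refine Eq.trans ?_ h
    exact congrArg f.1 (Subtype.ext (map_mul _ _ _))⟩
  map_add' _ _ := rfl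
  map_smul' _ _ := rfl

/-- the action as a homomorphism -/
def sig : MulAut G →* Module.End (ZMod p) (homsTo p (Opp p G)) where
  toFun := act p
  map_one' := by
    ext f k
    change f.1 _ = f.1 _
    congr 1
  map_mul' β γ := by
    ext f k
    change f.1 _ = f.1 _
    congr 1

theorem sig_apply (β : MulAut G) (f : homsTo p (Opp p G)) (k : Opp p G) :
    (sig p β f).1 k = f.1 ⟨(β⁻¹ : MulAut G) k.1, aut_mem p β⁻¹ k.2⟩ := rfl

end

theorem CLA_holds (hLIN : S_LIN) (hOPP : S_OPP) (hTRF : S_TRF) (hDIM : S_DIM) : S_CLA := by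
  intro G _ _ p _ A B z i α hperf hz7 hz hα hi hp7 hA hB hBA hne hidx hpow hcomm
  obtain ⟨hO, hOi, f, hf, hf0⟩ := hOPP G p A B hA hB hBA hne hidx hpow hcomm
  have h7 : (sig p (MulAut.conj z)) ^ 7 = 1 := by
    rw [← map_pow, ← map_pow, hz7, map_one, map_one]
  have hne1 : sig p (MulAut.conj z) ≠ 1 := by
    intro h1
    have hker := hz ((sig p).comp (MulAut.conj (G := G))).ker inferInstance h1
    apply hf0
    refine hTRF G p (Opp p G) hperf hO hOi f hf fun g o ↦ ?_
    have hg : g⁻¹ ∈ ((sig p).comp (MulAut.conj (G := G))).ker := by rw [hker]; trivial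
    have hg1 : sig p (MulAut.conj g⁻¹) = 1 := hg
    have h2 : (sig p (MulAut.conj g⁻¹) ⟨f, hf⟩).1 o = f o := by rw [hg1]; rfl
    rw [sig_apply] at h2
    rw [← h2]
    change f _ = f _
    congr 1
    apply Subtype.ext
    rw [map_inv, inv_inv]
    rfl
  have hinj : Function.Injective (sig p α) := by
    have h1 : sig p α⁻¹ * sig p α = 1 := by rw [← map_mul, inv_mul_cancel, map_one]
    intro a b hab
    have := congrArg (sig p α⁻¹) hab
    rw [← Module.End.mul_apply, ← Module.End.mul_apply, h1] at this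
    exact this
  have hrel : sig p α * sig p (MulAut.conj z) = sig p (MulAut.conj z) ^ 3 * sig p α := by
    have h1 : (α : MulAut G) * MulAut.conj z = MulAut.conj z ^ i * α := by
      ext k
      change α (z * k * z⁻¹) = (MulAut.conj z ^ i : MulAut G) (α k)
      rw [← map_pow, MulAut.conj_apply, map_mul, map_mul, map_inv, hα]
    have h2 : sig p (MulAut.conj z) ^ i = sig p (MulAut.conj z) ^ 3 := by
      conv_lhs => rw [← Nat.div_add_mod i 7, hi]
      rw [pow_add, pow_mul, h7, one_pow, one_mul]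
    rw [← map_mul, h1, map_mul, map_pow, h2]
  have hdim := hLIN p hp7 (homsTo p (Opp p G)) (sig p (MulAut.conj z)) (sig p α) h7 hne1 hinj hrel
  exact (hDIM G p (Opp p G) hdim).trans (Subgroup.card_subgroup_dvd_card _)

end Pool.Agent.Helper7.HZ.CLA
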