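import Pool.Agent.Helper7.HZ.CLA

/-!
# Packet HZ OPP: the subgroup generated by the elements of `p`-power order
-/

namespace Pool.Agent.Helper7.HZ.OPP

open Pool.Agent.Helper4.HZ

theorem exists_char_vec (V : Type) [AddCommGroup V] (p : ℕ) [Fact p.Prime] [Module (ZMod p) V]
    (q : V) (hq : q ≠ 0) : ∃ φ : V → ZMod p, (∀ a b, φ (a + b) = φ a + φ b) ∧ φ q ≠ 0 := by
  have key := (Module.forall_dual_apply_eq_zero_iff (ZMod p) q)
  have : ∃ φ : Module.Dual (ZMod p) V, φ q ≠ 0 := by
    by_contra hcon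
    push Not at hcon
    exact hq (key.1 hcon)
  obtain ⟨φ, hφ⟩ := this
  exact ⟨φ, map_add φ, hφ⟩

theorem exists_char_add (V : Type) [AddCommGroup V] (p : ℕ) [Fact p.Prime]
    (h : ∀ x : V, p • x = 0) (q : V) (hq : q ≠ 0) :
    ∃ φ : V → ZMod p, (∀ a b, φ (a + b) = φ a + φ b) ∧ φ q ≠ 0 := by
  exact @exists_char_vec V _ p _ (AddCommGroup.zmodModule h) q hq

/-- in a commutative group of exponent `p` there are enough characters -/
theorem exists_char (Q : Type) [CommGroup Q] (p : ℕ) [Fact p.Prime] (h : ∀ x : Q, x ^ p = 1)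
    (q : Q) (hq : q ≠ 1) : ∃ φ : Q → ZMod p, (∀ a b, φ (a * b) = φ a + φ b) ∧ φ q ≠ 0 :=
  exists_char_add (Additive Q) p (fun x ↦ h x.toMul) (Additive.ofMul q) hq

theorem OPP_holds : S_OPP := by
  intro G _ _ p _ A B hA hB hBA hne hidx hpow hcomm
  have hp : p.Prime := Fact.out
  have hN : (Opp p G).Normal := ⟨fun k hk g ↦ by
    have := CLA.aut_mem p (MulAut.conj g) hk
    simpa using this⟩
  have hidxO : ¬ p ∣ (Opp p G).index := by
    intro hd
    let P : Sylow p G := default
    have hP : (P : Subgroup G) ≤ Opp p G := by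
      intro g hg
      obtain ⟨k, hk⟩ := P.isPGroup' ⟨g, hg⟩
      refine Subgroup.subset_closure ⟨k, ?_⟩
      exact congrArg Subtype.val hk
    exact P.not_dvd_index (hd.trans (Subgroup.index_dvd_of_le hP))
  refine ⟨hN, hidxO, ?_⟩
  have hOA : Opp p G ≤ A := by
    rw [Opp, Subgroup.closure_le]
    rintro g ⟨k, hk⟩
    change g ∈ A
    rw [← QuotientGroup.eq_one_iff (N := A), ← orderOf_eq_one_iff]
    have h1 : orderOf (g : G ⧸ A) ∣ p ^ k := by
      apply orderOf_dvd_of_pow_eq_one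
      rw [← QuotientGroup.mk_pow, hk, QuotientGroup.mk_one]
    have h2 : orderOf (g : G ⧸ A) ∣ A.index := orderOf_dvd_natCard _
    have h3 : Nat.Coprime (p ^ k) A.index := Nat.Coprime.pow_left k ((hp.coprime_iff_not_dvd).2 hidx)
    exact Nat.eq_one_of_dvd_coprimes h3 h1 h2
  have hOB : ¬ Opp p G ≤ B := by
    intro hle
    obtain ⟨a, haA, haB⟩ := SetLike.exists_of_lt (lt_of_le_of_ne hBA (Ne.symm hne))
    apply hidxO
    refine Dvd.dvd.trans ?_ (Subgroup.index_dvd_of_le hle)
    have h1 : orderOf (a : G ⧸ B) = p := by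
      refine orderOf_eq_prime ?_ ?_
      · rw [← QuotientGroup.mk_pow]
        exact (QuotientGroup.eq_one_iff _).2 (hpow a haA)
      · intro h
        exact haB ((QuotientGroup.eq_one_iff _).1 h)
    rw [← h1]
    exact orderOf_dvd_natCard _
  obtain ⟨o, hoO, hoB⟩ := SetLike.not_le_iff_exists.1 hOB
  have hBn : (B.subgroupOf A).Normal := hB.subgroupOf A
  have hcm : ∀ x y : A ⧸ B.subgroupOf A, x * y = y * x := by
    intro x y
    induction x using QuotientGroup.induction_on with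
    | H a =>
      induction y using QuotientGroup.induction_on with
      | H b =>
        rw [← QuotientGroup.mk_mul, ← QuotientGroup.mk_mul, ← inv_mul_eq_one]
        rw [← QuotientGroup.mk_inv, ← QuotientGroup.mk_mul, QuotientGroup.eq_one_iff,
          Subgroup.mem_subgroupOf]
        have := hcomm _ (A.inv_mem b.2) _ (A.inv_mem a.2)
        simpa [mul_assoc] using this
  let _ : CommGroup (A ⧸ B.subgroupOf A) :=
    { (inferInstance : Group (A ⧸ B.subgroupOf A)) with mul_comm := hcm }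
  obtain ⟨φ, hφ, hφo⟩ := exists_char (A ⧸ B.subgroupOf A) p (by
    intro x
    induction x using QuotientGroup.induction_on with
    | H a =>
      change ((a ^ p : A) : A ⧸ B.subgroupOf A) = 1
      rw [QuotientGroup.eq_one_iff, Subgroup.mem_subgroupOf]
      exact hpow _ a.2) (QuotientGroup.mk ⟨o, hOA hoO⟩) (by
    intro h1
    change (QuotientGroup.mk ⟨o, hOA hoO⟩ : A ⧸ B.subgroupOf A) = 1 at h1
    rw [QuotientGroup.eq_one_iff, Subgroup.mem_subgroupOf] at h1
    exact hoB h1)
  refine ⟨fun k ↦ φ (QuotientGroup.mk ⟨k.1, hOA k.2⟩), ?_, ?_⟩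
  · intro a b
    exact hφ (QuotientGroup.mk ⟨a.1, hOA a.2⟩) (QuotientGroup.mk ⟨b.1, hOA b.2⟩)
  · intro h
    exact hφo (congrFun h ⟨o, hoO⟩)

end Pool.Agent.Helper7.HZ.OPP
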